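import Mathlib

/-! # Powers of two dividing the number of transversals of a Cayley table

For every finite group `G` of order `n` with a central element of order two, in particular for
every nontrivial finite 2-group, `n * 2 ^ (n / 2 - 1)` divides the number of transversals of the
Cayley table of `G`. -/

set_option autoImplicit false

namespace Pool.Agent.Results.MP_210e22_co.CentralInvolution

/-- A transversal of the Cayley table of `G`: a set of cells (row, column) that has exactly one
cell in each row, exactly one in each column, and each symbol exactly once; the symbol in the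
cell `(g, h)` is `g * h`. -/
def IsTransversal {G : Type} [Group G] (T : Set (G × G)) : Prop :=
  (∀ g : G, ∃! c, c ∈ T ∧ c.1 = g) ∧ (∀ h : G, ∃! c, c ∈ T ∧ c.2 = h) ∧
    (∀ k : G, ∃! c, c ∈ T ∧ c.1 * c.2 = k)

/-- The number `N(G)` of transversals of the Cayley table of `G`. -/
noncomputable def numTransversals (G : Type) [Group G] : ℕ :=
  Nat.card {T : Set (G × G) // IsTransversal T}

section

variable {G : Type} [Group G]

/-- Complete mappings. -/
def CM (σ : Equiv.Perm G) : Prop := Function.Bijective fun g => g * σ g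

/-- The cells of a permutation. -/
def cells (σ : Equiv.Perm G) : Set (G × G) := {c | c.2 = σ c.1}

theorem isTransversal_cells {σ : Equiv.Perm G} (h : CM σ) : IsTransversal (cells σ) := by
  refine ⟨fun g => ⟨(g, σ g), ⟨rfl, rfl⟩, ?_⟩, fun k => ⟨(σ.symm k, k), ⟨by simp [cells], rfl⟩, ?_⟩,
    fun k => ?_⟩
  · rintro ⟨a, b⟩ ⟨h1, h2⟩
    simp only [cells, Set.mem_ofPred_eq] at h1 h2
    subst h2; subst h1; rfl
  · rintro ⟨a, b⟩ ⟨h1, h2⟩
    simp only [cells, Set.mem_ofPred_eq] at h1 h2
    subst h2; subst h1; simp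
  · obtain ⟨g, hg⟩ := h.2 k
    refine ⟨(g, σ g), ⟨rfl, hg⟩, ?_⟩
    rintro ⟨a, b⟩ ⟨h1, h2⟩
    simp only [cells, Set.mem_ofPred_eq] at h1 h2
    subst h1
    have : a = g := h.1 (by simpa using h2.trans hg.symm)
    subst this; rfl

theorem cells_bijective : Function.Bijective
    (fun σ : {σ : Equiv.Perm G // CM σ} =>
      (⟨cells σ.1, isTransversal_cells σ.2⟩ : {T : Set (G × G) // IsTransversal T})) := by
  constructor
  · rintro ⟨σ, hσ⟩ ⟨τ, hτ⟩ h
    simp only [Subtype.mk.injEq] at h
    apply Subtype.ext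
    ext g
    have : (g, σ g) ∈ cells τ := by rw [← h]; rfl
    exact this
  · rintro ⟨T, h1, h2, h3⟩
    have key : ∀ g, ∃ k, (g, k) ∈ T := fun g => by
      obtain ⟨⟨a, b⟩, ⟨hc, ha⟩, -⟩ := h1 g
      exact ⟨b, by simpa [← ha] using hc⟩
    choose f hf using key
    have uniq : ∀ c ∈ T, c.2 = f c.1 := by
      rintro ⟨a, b⟩ hc
      have := (h1 a).unique ⟨hc, rfl⟩ ⟨hf a, rfl⟩
      exact congrArg Prod.snd this
    have inj : Function.Injective f := by
      intro a b hab
      have := (h2 (f a)).unique ⟨hf a, rfl⟩ ⟨hf b, hab.symm⟩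
      exact congrArg Prod.fst this
    have surj : Function.Surjective f := by
      intro k
      obtain ⟨⟨a, b⟩, ⟨hc, hb⟩, -⟩ := h2 k
      exact ⟨a, by rw [← uniq _ hc]; exact hb⟩
    refine ⟨⟨Equiv.ofBijective f ⟨inj, surj⟩, ?_, ?_⟩, ?_⟩
    · intro a b hab
      have := (h3 (a * f a)).unique ⟨hf a, rfl⟩ ⟨hf b, hab.symm⟩
      exact congrArg Prod.fst this
    · intro k
      obtain ⟨⟨a, b⟩, ⟨hc, hb⟩, -⟩ := h3 k
      exact ⟨a, by
        show a * f a = k
        rw [← uniq _ hc]; exact hb⟩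
    · apply Subtype.ext
      ext ⟨a, b⟩
      simp only [cells, Set.mem_ofPred_eq]
      constructor
      · intro h; rw [h]; exact hf a
      · intro h; exact uniq _ h

theorem numTransversals_eq : numTransversals G = Nat.card {σ : Equiv.Perm G // CM σ} :=
  (Nat.card_eq_of_bijective _ cells_bijective).symm

/-- Complete mappings are normalized ones followed by a right translation. -/
def normEquiv : {σ : Equiv.Perm G // CM σ} ≃ G × {σ : Equiv.Perm G // CM σ ∧ σ 1 = 1} where
  toFun σ := (σ.1 1, ⟨σ.1.trans (Equiv.mulRight (σ.1 1)⁻¹), by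
    refine ⟨?_, by simp⟩
    have : (fun g => g * (σ.1.trans (Equiv.mulRight (σ.1 1)⁻¹)) g)
        = (Equiv.mulRight (σ.1 1)⁻¹) ∘ (fun g => g * σ.1 g) := by
      funext g; simp [mul_assoc]
    unfold CM
    rw [this]
    exact (Equiv.bijective _).comp σ.2⟩)
  invFun p := ⟨p.2.1.trans (Equiv.mulRight p.1), by
    have : (fun g => g * (p.2.1.trans (Equiv.mulRight p.1)) g)
        = (Equiv.mulRight p.1) ∘ (fun g => g * p.2.1 g) := by
      funext g; simp [mul_assoc]
    unfold CM
    rw [this]
    exact (Equiv.bijective _).comp p.2.2.1⟩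
  left_inv σ := by
    apply Subtype.ext
    ext g
    simp
  right_inv p := by
    obtain ⟨b, σ, h1, h2⟩ := p
    ext
    · simp [h2]
    · simp [h2]

end

section

variable {G : Type} [Group G] (z : G)

abbrev Q := G ⧸ Subgroup.zpowers z

abbrev M := (Q z → ZMod 2) × (Q z → ZMod 2) × (Q z → ZMod 2)

open Classical in
/-- The element `1` or `z`. -/
noncomputable def ζ (a : ZMod 2) : G := if a = 0 then 1 else z

theorem zmod2_cases (a : ZMod 2) : a = 0 ∨ a = 1 := by
  revert a; decide

theorem ζ_add (hz : z * z = 1) (a b : ZMod 2) : ζ z (a + b) = ζ z a * ζ z b := by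
  rcases zmod2_cases a with rfl | rfl <;> rcases zmod2_cases b with rfl | rfl <;>
    simp [ζ, hz, show (1 + 1 : ZMod 2) = 0 from rfl]

theorem ζ_mem (a : ZMod 2) : ζ z a ∈ Subgroup.zpowers z := by
  unfold ζ
  split_ifs
  · exact Subgroup.one_mem _
  · exact Subgroup.mem_zpowers z

theorem ζ_comm (hc : z ∈ Subgroup.center G) (a : ZMod 2) (g : G) : ζ z a * g = g * ζ z a := by
  unfold ζ
  split_ifs
  · simp
  · exact ((Subgroup.mem_center_iff.mp hc) g).symm

theorem mk_ζ (g : G) (a : ZMod 2) : ((g * ζ z a : G) : Q z) = (g : Q z) :=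
  QuotientGroup.mk_mul_of_mem g (ζ_mem z a)

theorem ζ_self (hz : z * z = 1) (a : ZMod 2) : ζ z a * ζ z a = 1 := by
  rcases zmod2_cases a with rfl | rfl <;> simp [ζ, hz]

/-- The permutation `g ↦ g z^{x(g)}`. -/
noncomputable def P (hz : z * z = 1) (x : Q z → ZMod 2) : Equiv.Perm G :=
  Function.Involutive.toPerm (fun g => g * ζ z (x (g : Q z))) (by
    intro g
    simp only [mk_ζ]
    rw [mul_assoc, ζ_self z hz, mul_one])

theorem P_apply (hz : z * z = 1) (x : Q z → ZMod 2) (g : G) :
    P z hz x g = g * ζ z (x (g : Q z)) := rfl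

theorem mk_P (hz : z * z = 1) (x : Q z → ZMod 2) (g : G) :
    ((P z hz x g : G) : Q z) = (g : Q z) := by
  rw [P_apply, mk_ζ]

theorem P_P (hz : z * z = 1) (x : Q z → ZMod 2) (g : G) : P z hz x (P z hz x g) = g := by
  rw [P_apply, mk_P, P_apply, mul_assoc, ζ_self z hz, mul_one]

theorem P_add (hz : z * z = 1) (x x' : Q z → ZMod 2) (g : G) :
    P z hz (x + x') g = P z hz x (P z hz x' g) := by
  rw [P_apply, P_apply, mk_P, P_apply, Pi.add_apply, add_comm, ζ_add z hz, mul_assoc]

theorem P_zero (hz : z * z = 1) (g : G) : P z hz 0 g = g := by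
  rw [P_apply]; simp [ζ]

/-- The moves. -/
noncomputable def act (hz : z * z = 1) (v : M z) (σ : Equiv.Perm G) : Equiv.Perm G :=
  P z hz v.2.1 * σ * P z hz v.1

theorem act_apply (hz : z * z = 1) (v : M z) (σ : Equiv.Perm G) (g : G) :
    act z hz v σ g = P z hz v.2.1 (σ (P z hz v.1 g)) := rfl

theorem act_P (hz : z * z = 1) (v : M z) (σ : Equiv.Perm G) (g : G) :
    act z hz v σ (P z hz v.1 g) = P z hz v.2.1 (σ g) := by
  rw [act_apply, P_P]

theorem act_zero (hz : z * z = 1) (σ : Equiv.Perm G) : act z hz 0 σ = σ := by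
  ext g
  rw [act_apply]
  simp only [Prod.fst_zero, Prod.snd_zero, P_zero]

theorem act_add (hz : z * z = 1) (v v' : M z) (σ : Equiv.Perm G) :
    act z hz (v + v') σ = act z hz v (act z hz v' σ) := by
  ext g
  rw [act_apply, act_apply, act_apply]
  simp only [Prod.fst_add, Prod.snd_add]
  rw [P_add, add_comm v.1, P_add]

/-- The linear map whose kernel is the space of moves of `σ` that keep it normalized. -/
noncomputable def Lam (σ : Equiv.Perm G) : M z →ₗ[ZMod 2] (G → ZMod 2) × ZMod 2 × ZMod 2 where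
  toFun v := (fun g => v.1 (g : Q z) + v.2.1 ((σ g : G) : Q z) + v.2.2 ((g * σ g : G) : Q z),
    v.1 ((1 : G) : Q z), v.2.1 ((1 : G) : Q z))
  map_add' v w := by
    ext
    · simp only [Prod.fst_add, Prod.snd_add, Pi.add_apply]; ring
    · rfl
    · rfl
  map_smul' c v := by
    ext
    · simp only [Prod.smul_fst, Prod.smul_snd, Pi.smul_apply, smul_eq_mul, RingHom.id_apply]; ring
    · rfl
    · rfl

/-- The space of moves. -/
noncomputable def K (σ : Equiv.Perm G) : Submodule (ZMod 2) (M z) := LinearMap.ker (Lam z σ)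

theorem mem_K (σ : Equiv.Perm G) (v : M z) : v ∈ K z σ ↔
    (∀ g : G, v.1 (g : Q z) + v.2.1 ((σ g : G) : Q z) + v.2.2 ((g * σ g : G) : Q z) = 0) ∧
      v.1 ((1 : G) : Q z) = 0 ∧ v.2.1 ((1 : G) : Q z) = 0 := by
  unfold K
  rw [LinearMap.mem_ker]
  simp only [Lam, LinearMap.coe_mk, AddHom.coe_mk, Prod.mk_eq_zero, funext_iff, Pi.zero_apply]

theorem mk_mul_P (hz : z * z = 1) (hc : z ∈ Subgroup.center G) (x y : Q z → ZMod 2) (g h : G) :
    ((P z hz x g * P z hz y h : G) : Q z) = ((g * h : G) : Q z) := by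
  have : P z hz x g * P z hz y h = (g * h) * ζ z (x (g : Q z) + y (h : Q z)) := by
    rw [P_apply, P_apply, ζ_add z hz, mul_assoc, ← mul_assoc (ζ z _) h, ζ_comm z hc, mul_assoc,
      mul_assoc]
  rw [this, mk_ζ]

theorem K_act (hz : z * z = 1) (hc : z ∈ Subgroup.center G) (v : M z) (σ : Equiv.Perm G) :
    K z (act z hz v σ) = K z σ := by
  ext u
  rw [mem_K, mem_K]
  have : ∀ g : G, (u.1 ((P z hz v.1 g : G) : Q z)
      + u.2.1 ((act z hz v σ (P z hz v.1 g) : G) : Q z)
      + u.2.2 ((P z hz v.1 g * act z hz v σ (P z hz v.1 g) : G) : Q z))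
      = u.1 (g : Q z) + u.2.1 ((σ g : G) : Q z) + u.2.2 ((g * σ g : G) : Q z) := by
    intro g
    rw [act_P, mk_P, mk_P, mk_mul_P z hz hc]
  constructor
  · rintro ⟨h1, h2⟩
    exact ⟨fun g => by rw [← this g]; exact h1 _, h2⟩
  · rintro ⟨h1, h2⟩
    refine ⟨fun g => ?_, h2⟩
    have := this (P z hz v.1 g)
    rw [P_P] at this
    rw [this]
    exact h1 _

theorem zmod2_eq_of_add (a b c : ZMod 2) (h : a + b + c = 0) : a + b = c := by
  revert a b c; decide

theorem CM_act (hz : z * z = 1) (hc : z ∈ Subgroup.center G) {v : M z} {σ : Equiv.Perm G}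
    (hv : v ∈ K z σ) (hσ : CM σ) : CM (act z hz v σ) := by
  rw [mem_K] at hv
  have h1 : (fun g => g * act z hz v σ g) ∘ (P z hz v.1) = (P z hz v.2.2) ∘ (fun g => g * σ g) := by
    funext g
    simp only [Function.comp]
    rw [act_P, P_apply z hz v.2.2, ← zmod2_eq_of_add _ _ _ (hv.1 g), P_apply, P_apply, ζ_add z hz,
      mul_assoc, ← mul_assoc (ζ z _) (σ g), ζ_comm z hc, mul_assoc, mul_assoc]
  have h2 : Function.Bijective ((fun g => g * act z hz v σ g) ∘ (P z hz v.1)) := by
    rw [h1]; exact (Equiv.bijective _).comp hσ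
  exact (Function.Bijective.of_comp_iff _ (Equiv.bijective _)).mp h2

theorem norm_act (hz : z * z = 1) {v : M z} {σ : Equiv.Perm G}
    (hv : v ∈ K z σ) (hσ : σ 1 = 1) : act z hz v σ 1 = 1 := by
  rw [mem_K] at hv
  rw [act_apply, P_apply z hz v.1, hv.2.1]
  simp only [ζ, if_true, mul_one]
  rw [hσ, P_apply, hv.2.2]
  simp [ζ]

theorem act_free (hz : z * z = 1) (hne : z ≠ 1) {v : M z} {σ : Equiv.Perm G}
    (hc : z ∈ Subgroup.center G)
    (hv : v ∈ K z σ) (hσ : CM σ) (h : act z hz v σ = σ) : v = 0 := by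
  rw [mem_K] at hv
  have h1 : ∀ g, σ (P z hz v.1 g) = P z hz v.2.1 (σ g) := by
    intro g
    rw [← act_P, h]
  have hx : ∀ g : G, v.1 (g : Q z) = 0 := by
    intro g
    by_contra hne0
    have hx1 : v.1 (g : Q z) = 1 := (zmod2_cases _).resolve_left hne0
    have h2 := h1 g
    have hP : P z hz v.1 g = g * z := by rw [P_apply, hx1]; simp [ζ]
    rw [hP] at h2
    rcases zmod2_cases (v.2.1 ((σ g : G) : Q z)) with hy | hy
    · rw [P_apply, hy] at h2
      simp only [ζ, if_true, mul_one] at h2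
      have := σ.injective h2
      exact hne (by simpa using this)
    · rw [P_apply, hy] at h2
      simp only [ζ, one_ne_zero, if_false] at h2
      have h3 : (g * z) * σ (g * z) = g * σ g := by
        rw [h2]
        have hcz := (Subgroup.mem_center_iff.mp hc) (σ g)
        calc g * z * (σ g * z) = g * (z * σ g) * z := by group
          _ = g * (σ g * z) * z := by rw [hcz]
          _ = g * σ g * (z * z) := by group
          _ = g * σ g := by rw [hz, mul_one]
      have := hσ.1 h3
      exact hne (by simpa using this)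
  have hy : ∀ g : G, v.2.1 (g : Q z) = 0 := by
    intro g
    have h2 := h1 (σ.symm g)
    rw [P_apply z hz v.1, hx] at h2
    simp only [ζ, if_true, mul_one, Equiv.apply_symm_apply] at h2
    rw [P_apply] at h2
    by_contra hne0
    have hy1 : v.2.1 (g : Q z) = 1 := (zmod2_cases _).resolve_left hne0
    rw [hy1] at h2
    simp only [ζ, one_ne_zero, if_false] at h2
    exact hne (by simpa using h2.symm)
  have hw : ∀ g : G, v.2.2 (g : Q z) = 0 := by
    intro g
    obtain ⟨a, rfl⟩ := hσ.2 g
    have := hv.1 a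
    rw [hx, hy] at this
    simpa using this
  refine Prod.ext (funext fun q => ?_) (Prod.ext (funext fun q => ?_) (funext fun q => ?_))
  · obtain ⟨g, rfl⟩ := QuotientGroup.mk_surjective q
    exact hx g
  · obtain ⟨g, rfl⟩ := QuotientGroup.mk_surjective q
    exact hy g
  · obtain ⟨g, rfl⟩ := QuotientGroup.mk_surjective q
    exact hw g

/-- The normalized complete mappings with a given space of moves. -/
def Fib (W : Submodule (ZMod 2) (M z)) : Type :=
  {σ : Equiv.Perm G // (CM σ ∧ σ 1 = 1) ∧ K z σ = W}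

/-- The action of the moves on a fibre. -/
@[instance_reducible]
noncomputable def fibAction (hz : z * z = 1) (hc : z ∈ Subgroup.center G)
    (W : Submodule (ZMod 2) (M z)) : AddAction W (Fib z W) where
  vadd v σ := ⟨act z hz v.1 σ.1, ⟨CM_act z hz hc (by rw [σ.2.2]; exact v.2) σ.2.1.1,
    norm_act z hz (by rw [σ.2.2]; exact v.2) σ.2.1.2⟩, by rw [K_act z hz hc, σ.2.2]⟩
  zero_vadd σ := Subtype.ext (act_zero z hz σ.1)
  add_vadd v w σ := Subtype.ext (act_add z hz v.1 w.1 σ.1)

theorem card_dvd_fib (hz : z * z = 1) (hne : z ≠ 1) (hc : z ∈ Subgroup.center G)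
    (W : Submodule (ZMod 2) (M z)) : Nat.card W ∣ Nat.card (Fib z W) := by
  let _ := fibAction z hz hc W
  have hfree : ∀ b : Fib z W, AddAction.stabilizer W b = ⊥ := by
    intro b
    rw [eq_bot_iff]
    intro v hv
    have h0 := AddAction.mem_stabilizer_iff.mp hv
    have h1 : act z hz v.1 b.1 = b.1 := congrArg (fun s : Fib z W => s.1) h0
    have h2 : v.1 = 0 := act_free z hz hne hc (by rw [b.2.2]; exact v.2) b.2.1.1 h1
    exact Subtype.ext h2
  rw [Nat.card_congr (AddAction.selfEquivOrbitsQuotientProd hfree), Nat.card_prod]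
  exact Dvd.intro_left _ rfl

end

section

variable {G : Type} [Group G] (z : G)

theorem sum_coset [Fintype G] (hz : z * z = 1) (hne : z ≠ 1) (x : Q z → ZMod 2) :
    ∑ g : G, x (g : Q z) = 0 := by
  refine Finset.sum_involution (fun g _ => g * z) ?_ ?_ ?_ ?_
  · intro g _
    rw [QuotientGroup.mk_mul_of_mem g (Subgroup.mem_zpowers z)]
    exact CharTwo.add_self_eq_zero _
  · intro g _ _ h
    exact hne (by simpa using h)
  · intro g _; exact Finset.mem_univ _
  · intro g _
    rw [mul_assoc, hz, mul_one]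

/-- Sum functional. -/
def sumF (G : Type) [Fintype G] : (G → ZMod 2) × ZMod 2 × ZMod 2 →ₗ[ZMod 2] ZMod 2 where
  toFun f := ∑ g, f.1 g
  map_add' f h := by simp [Finset.sum_add_distrib]
  map_smul' c f := by simp [Finset.mul_sum]

theorem finrank_ker_sumF [Fintype G] :
    Module.finrank (ZMod 2) (LinearMap.ker (sumF G)) = Fintype.card G + 1 := by
  classical
  have hsurj : Function.Surjective (sumF G) := by
    intro c
    exact ⟨(Pi.single 1 c, 0), by simp [sumF]⟩
  have h := LinearMap.finrank_range_add_finrank_ker (sumF G)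
  rw [LinearMap.range_eq_top.mpr hsurj, finrank_top, Module.finrank_self, Module.finrank_prod,
    Module.finrank_prod, Module.finrank_fintype_fun_eq_card, Module.finrank_self] at h
  omega

variable [Finite G]

theorem finrank_K (hz : z * z = 1) (hne : z ≠ 1) {σ : Equiv.Perm G} (hσ : CM σ) :
    Nat.card G / 2 - 1 ≤ Module.finrank (ZMod 2) (K z σ) := by
  classical
  have := Fintype.ofFinite G
  have : Fintype (Q z) := Fintype.ofFinite _
  have hq : Nat.card G = Nat.card (Q z) * 2 := by
    rw [Subgroup.card_eq_card_quotient_mul_card_subgroup (Subgroup.zpowers z), Nat.card_zpowers,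
      orderOf_eq_prime (by rw [pow_two, hz]) hne]
  have hM : Module.finrank (ZMod 2) (M z) = 3 * Nat.card (Q z) := by
    rw [Module.finrank_prod, Module.finrank_prod, Module.finrank_fintype_fun_eq_card,
      Nat.card_eq_fintype_card]
    ring
  have hrange : LinearMap.range (Lam z σ) ≤ LinearMap.ker (sumF G) := by
    rintro _ ⟨v, rfl⟩
    show ∑ g : G, (v.1 (g : Q z) + v.2.1 ((σ g : G) : Q z) + v.2.2 ((g * σ g : G) : Q z)) = 0
    rw [Finset.sum_add_distrib, Finset.sum_add_distrib, sum_coset z hz hne,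
      Equiv.sum_comp σ (fun g => v.2.1 (g : Q z)), sum_coset z hz hne,
      hσ.sum_comp (fun g => v.2.2 (g : Q z)), sum_coset z hz hne]
    simp
  have hr := Submodule.finrank_mono hrange
  have h := LinearMap.finrank_range_add_finrank_ker (Lam z σ)
  have hs := finrank_ker_sumF (G := G)
  rw [← Nat.card_eq_fintype_card] at hs
  unfold K
  omega

theorem pow_dvd_normalized (hz : z * z = 1) (hne : z ≠ 1) (hc : z ∈ Subgroup.center G) :
    2 ^ (Nat.card G / 2 - 1) ∣ Nat.card {σ : Equiv.Perm G // CM σ ∧ σ 1 = 1} := by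
  classical
  have : Finite (Submodule (ZMod 2) (M z)) := Finite.of_injective _ SetLike.coe_injective
  have := Fintype.ofFinite (Submodule (ZMod 2) (M z))
  rw [Nat.card_congr (Equiv.sigmaFiberEquiv
    (fun σ : {σ : Equiv.Perm G // CM σ ∧ σ 1 = 1} => K z σ.1)).symm, Nat.card_sigma]
  refine Finset.dvd_sum fun W _ => ?_
  have e : {σ : {σ : Equiv.Perm G // CM σ ∧ σ 1 = 1} // K z σ.1 = W} ≃ Fib z W :=
    { toFun := fun σ => ⟨σ.1.1, σ.1.2, σ.2⟩
      invFun := fun σ => ⟨⟨σ.1, σ.2.1⟩, σ.2.2⟩
      left_inv := fun _ => rfl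
      right_inv := fun _ => rfl }
  rw [Nat.card_congr e]
  rcases isEmpty_or_nonempty (Fib z W) with hemp | ⟨⟨σ, h1, h2⟩⟩
  · rw [show Nat.card (Fib z W) = 0 from Nat.card_of_isEmpty]
    exact dvd_zero _
  · refine Dvd.dvd.trans ?_ (card_dvd_fib z hz hne hc W)
    rw [Module.natCard_eq_pow_finrank (K := ZMod 2) (V := W), Nat.card_zmod]
    apply pow_dvd_pow
    rw [← h2]
    exact finrank_K z hz hne h1.1

theorem main (hz : z * z = 1) (hne : z ≠ 1) (hc : z ∈ Subgroup.center G) :
    Nat.card G * 2 ^ (Nat.card G / 2 - 1) ∣ numTransversals G := by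
  rw [numTransversals_eq, Nat.card_congr normEquiv, Nat.card_prod]
  exact Nat.mul_dvd_mul_left _ (pow_dvd_normalized z hz hne hc)

end

/-- Let `G` be a finite group of order `n` and `N(G)` the number of transversals of its Cayley
table. If `G` has a central element of order two, then `n * 2 ^ (n / 2 - 1)` divides `N(G)`. In
particular `2 ^ (2 ^ m + m)` divides `N(G)` for every 2-group `G` of order `2 ^ (m + 1)`. -/
theorem result :
    (∀ (G : Type) [Group G] [Finite G] (z : G), z ∈ Subgroup.center G → orderOf z = 2 →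
      Nat.card G * 2 ^ (Nat.card G / 2 - 1) ∣ numTransversals G) ∧
    (∀ (G : Type) [Group G] (m : ℕ), Nat.card G = 2 ^ (m + 1) →
      2 ^ (2 ^ m + m) ∣ numTransversals G) := by
  have h1 : ∀ (G : Type) [Group G] [Finite G] (z : G), z ∈ Subgroup.center G → orderOf z = 2 →
      Nat.card G * 2 ^ (Nat.card G / 2 - 1) ∣ numTransversals G := by
    intro G _ _ z hc ho
    have hz : z * z = 1 := by
      have := pow_orderOf_eq_one z
      rwa [ho, pow_two] at this
    have hne : z ≠ 1 := by
      rintro rfl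
      simp at ho
    exact main z hz hne hc
  refine ⟨h1, ?_⟩
  intro G _ m hm
  have hfin : Finite G := Nat.finite_of_card_ne_zero (by rw [hm]; positivity)
  have hp : IsPGroup 2 G := IsPGroup.of_card hm
  have hnt : Nontrivial G := by
    rw [← Finite.one_lt_card_iff_nontrivial, hm]
    exact Nat.one_lt_two_pow (Nat.succ_ne_zero m)
  have hcn := hp.center_nontrivial
  have hpc : IsPGroup 2 (Subgroup.center G) := hp.to_subgroup _
  obtain ⟨k, hk⟩ := (IsPGroup.iff_card).mp hpc
  have hk0 : k ≠ 0 := by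
    rintro rfl
    have := Finite.one_lt_card_iff_nontrivial.mpr hcn
    rw [hk] at this
    simp at this
  have : Fact (Nat.Prime 2) := ⟨Nat.prime_two⟩
  obtain ⟨z, hz⟩ := exists_prime_orderOf_dvd_card' (G := Subgroup.center G) 2
    (by rw [hk]; exact dvd_pow_self 2 hk0)
  have h2 := h1 G z.1 z.2 (by rw [Subgroup.orderOf_coe]; exact hz)
  have h3 : 2 ^ (2 ^ m + m) = Nat.card G * 2 ^ (Nat.card G / 2 - 1) := by
    rw [hm, show 2 ^ (m + 1) / 2 = 2 ^ m by rw [pow_succ]; simp, ← pow_add]
    congr 1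
    have : 1 ≤ 2 ^ m := Nat.one_le_two_pow
    omega
  rw [h3]
  exact h2

end Pool.Agent.Results.MP_210e22_co.CentralInvolution
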